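import Pool.Agent.H89.CM4.Targets2

/-!
# Row CFB: the bound of the coefficients
-/

set_option autoImplicit false

open MeasureTheory Set Filter NumberField NumberField.InfinitePlace Pool.Agent.H65.CM4
  Pool.Agent.H89.CM4
open scoped Real

namespace Pool.Agent.H39.CM4

theorem cfb_sq {x : ℝ} (hx : 0 ≤ x) (p : ℝ) : (x ^ p) ^ 2 = x ^ (2 * p) := by
  rw [← Real.rpow_natCast, ← Real.rpow_mul hx]
  congr 1; push_cast; ring

theorem cfb_real {A NI mL R κ : ℝ} (hA : 1 ≤ A) (hI : 1 ≤ NI) (hm : 0 < mL)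
    (hR : 1 ≤ R) (hmR : 1 / R ≤ mL) (hκ : 0 < κ) :
    ((A / NI) ^ (1 / 2 + 5 * κ)) ^ 2 * ((NI / mL) ^ (1 / 2 + 2 * κ)) ^ 2 * mL ≤
      A * (A * R) ^ (16 * κ) := by
  have hA0 : 0 < A := by linarith
  have hI0 : 0 < NI := by linarith
  have hR0 : 0 < R := by linarith
  have ha : 0 < A / NI := by positivity
  have hb : 0 < NI / mL := by positivity
  rw [cfb_sq ha.le, cfb_sq hb.le]
  have e1 : (A / NI) ^ (2 * (1 / 2 + 5 * κ)) = A / NI * (A / NI) ^ (10 * κ) := by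
    rw [← Real.rpow_one_add' ha.le (by positivity)]; congr 1; ring
  have e2 : (NI / mL) ^ (2 * (1 / 2 + 2 * κ)) = NI / mL * (NI / mL) ^ (4 * κ) := by
    rw [← Real.rpow_one_add' hb.le (by positivity)]; congr 1; ring
  have e3 : (NI / mL) ^ (4 * κ) ≤ NI ^ (10 * κ) * R ^ (16 * κ) := by
    have h1 : NI / mL ≤ NI * R := by
      rw [div_le_iff₀ hm]
      rw [div_le_iff₀ hR0] at hmR
      have := mul_le_mul_of_nonneg_left hmR hI0.le
      linarith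
    calc (NI / mL) ^ (4 * κ) ≤ (NI * R) ^ (4 * κ) := Real.rpow_le_rpow hb.le h1 (by positivity)
      _ = NI ^ (4 * κ) * R ^ (4 * κ) := Real.mul_rpow hI0.le hR0.le
      _ ≤ NI ^ (10 * κ) * R ^ (16 * κ) := by
          gcongr
          · norm_num
          · norm_num
  have e4 : (A / NI) ^ (10 * κ) * NI ^ (10 * κ) = A ^ (10 * κ) := by
    rw [← Real.mul_rpow ha.le hI0.le]; congr 1; field_simp
  rw [e1, e2]
  calc A / NI * (A / NI) ^ (10 * κ) * (NI / mL * (NI / mL) ^ (4 * κ)) * mL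
      = A * ((A / NI) ^ (10 * κ) * (NI / mL) ^ (4 * κ)) := by field_simp
    _ ≤ A * ((A / NI) ^ (10 * κ) * (NI ^ (10 * κ) * R ^ (16 * κ))) := by gcongr
    _ = A * (A ^ (10 * κ) * R ^ (16 * κ)) := by rw [← mul_assoc ((A / NI) ^ (10 * κ)), e4]
    _ ≤ A * (A ^ (16 * κ) * R ^ (16 * κ)) := by
        gcongr
        norm_num
    _ = A * (A * R) ^ (16 * κ) := by rw [Real.mul_rpow hA0.le hR0.le]

theorem cfb_log {a κ : ℝ} (ha : 1 ≤ a) (hκ : 0 < κ) : 1 + Real.log a ≤ (1 + 1 / κ) * a ^ κ := by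
  have h1 : Real.log a ≤ a ^ κ / κ := Real.log_le_rpow_div (by linarith) hκ
  have h2 : 1 ≤ a ^ κ := Real.one_le_rpow ha hκ.le
  have e : (1 + 1 / κ) * a ^ κ = a ^ κ + a ^ κ / κ := by ring
  linarith

section

variable {k : Type} [Field k] [NumberField k]

theorem cfb_nm_mul (I J : Ideal (𝓞 k)) : nm (I * J) = nm I * nm J := by
  unfold nm; rw [map_mul]; push_cast; ring

theorem cfb_sup {I g : Ideal (𝓞 k)} (h : Squarefree (I * g)) : I ⊔ g = ⊤ := by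
  have h1 : I ⊔ g ∣ I := Ideal.dvd_iff_le.2 le_sup_left
  have h2 : I ⊔ g ∣ g := Ideal.dvd_iff_le.2 le_sup_right
  exact Ideal.isUnit_iff.1 (h _ (mul_dvd_mul h1 h2))

omit [NumberField k] in
theorem cfb_top {I J K : Ideal (𝓞 k)} (h : I ⊔ J = ⊤) (hJ : J ≤ K) : I ⊔ K = ⊤ := by
  rw [eq_top_iff, ← h]
  exact sup_le_sup_left hJ I

theorem cfb_Sf {b : ℕ} {g J : Ideal (𝓞 k)} (hg : Sf b g) (hJ : J ∣ g) : Sf b J := by
  refine ⟨?_, hg.sq.squarefree_of_dvd hJ, ?_⟩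
  · rintro rfl
    apply hg.ne
    have h1 : (⊥ : Ideal (𝓞 k)) = 0 := rfl
    rw [h1] at hJ ⊢
    exact zero_dvd_iff.1 hJ
  · have h := cfb_top (I := Ideal.span {(b : 𝓞 k)}) (J := g) (K := J)
      (by rw [sup_comm]; exact hg.cop) (Ideal.dvd_iff_le.1 hJ)
    rw [sup_comm]; exact h

/-- the size of a term -/
theorem cfb_term {κ NI Ng C3 E0 : ℝ} (hκ : 0 < κ) (hNI : 1 ≤ NI) (hNg : 1 ≤ Ng) (hC3 : 0 ≤ C3)
    (hE0 : 0 ≤ E0) (a : ℝ) (ha : Ng ≤ a) :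
    1 / (NI * Ng) * (C3 * Ng ^ κ * (Ng ^ (2 * κ) * Ng ^ (1 / 2 + κ) * E0)) ≤
      C3 * E0 / NI * a ^ (1 / 2 + 4 * κ) * (1 / Ng) := by
  have hN0 : 0 < Ng := by linarith
  have hI0 : 0 < NI := by linarith
  have e : Ng ^ κ * (Ng ^ (2 * κ) * Ng ^ (1 / 2 + κ)) = Ng ^ (1 / 2 + 4 * κ) := by
    rw [← Real.rpow_add hN0, ← Real.rpow_add hN0]; congr 1; ring
  calc 1 / (NI * Ng) * (C3 * Ng ^ κ * (Ng ^ (2 * κ) * Ng ^ (1 / 2 + κ) * E0))
      = C3 * E0 / NI * (Ng ^ κ * (Ng ^ (2 * κ) * Ng ^ (1 / 2 + κ))) * (1 / Ng) := by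
        field_simp
    _ = C3 * E0 / NI * Ng ^ (1 / 2 + 4 * κ) * (1 / Ng) := by rw [e]
    _ ≤ _ := by gcongr

end

variable (k : Type) [Field k] [NumberField k] [IsTotallyReal k]

theorem pf_CFB (hECB : T_ECB k) (hKMN : T_KMN k) (hIXC : T_IXC k) (hMNL : T_MNL k) (hIDC : T_IDC k)
    (hDVI : T_DVI k) (hEMB : T_EMB k) (_hMIN : T_MIN k) (hFLS : T_FLS k) : T_CFB k := by
  classical
  intro B hB
  obtain ⟨K, hK, hE⟩ := hECB B hB
  refine ⟨K, hK, fun b κ hb hκ hκ2 => ?_⟩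
  obtain ⟨C1, j, hC1, hE⟩ := hE κ hκ (by linarith)
  obtain ⟨C2, hC2, hKM⟩ := hKMN
  obtain ⟨C3, hC3, hD⟩ := hDVI κ hκ
  obtain ⟨hIDm, hSqm, C4, hC4, hC4'⟩ := hIDC
  have hnm1 : ∀ I : Ideal (𝓞 k), I ≠ ⊥ → 1 ≤ nm I := fun I hI => (hEMB.2.2.2.2.2.2.2.2.2.2.1 I hI).1
  set D : ℝ := (b : ℝ) ^ (2 * dg k) * C2 with hDdef
  have hb1 : (1 : ℝ) ≤ b := by exact_mod_cast hb
  have hD1 : 1 ≤ D := one_le_mul_of_one_le_of_one_le (one_le_pow₀ hb1) hC2
  have hD0 : 0 < D := by linarith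
  refine ⟨(C3 * C4 * (1 + 1 / κ) * C1 * D ^ (1 / 2 + 2 * κ)) ^ 2, j, by positivity, ?_⟩
  intro M s α A r I L x y hM hs hα hA hr hI hL hR
  have hht : 0 < ht k j s.im := by unfold ht; positivity
  set h0 : ℝ := ht k j s.im with hh0
  have hr0 : 0 < r := by linarith
  obtain ⟨hI1, hI2, hI3, hIA⟩ := (hSqm b A I).1 hI
  have hSI : Sf b I := ⟨hI1, hI2, hI3⟩
  have hNI : 1 ≤ nm I := hnm1 I hI1
  have hNI0 : 0 < nm I := by linarith
  have hixL : ix L ≠ 0 := by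
    rw [((hFLS I L hI1).2 hL).2]
    exact fun h => hI1 (Ideal.absNorm_eq_zero_iff.1 h)
  have hmL := hMNL r L hr hixL
  set mL : ℝ := mn r L with hmLdef
  have hrn : 1 ≤ r ^ dg k := one_le_pow₀ hr
  have hmL0 : 0 < mL := lt_of_lt_of_le (by positivity) hmL
  set E0 : ℝ := C1 * h0 * (D * (nm I / mL)) ^ (1 / 2 + 2 * κ) with hE0def
  have hE00 : 0 ≤ E0 := by positivity
  set a : ℝ := A / nm I with hadef
  have ha1 : 1 ≤ a := by rw [hadef, one_le_div hNI0]; exact hIA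
  have ha0 : 0 < a := by linarith
  obtain ⟨hMpos, hMle, hMix⟩ := hIXC b M hb hM
  -- the Epstein zeta functions
  have hEc : ∀ J : Ideal (𝓞 k), Sf b J → I ⊔ J = ⊤ → ‖Ec s (M ⊓ L ⊓ kO J) x y‖ ≤ E0 := by
    intro J hJ hIJ
    have hJ1 : 1 ≤ nm J := hnm1 J hJ.ne
    have hix := (hMix I J L hSI hJ hIJ hL).2
    have hmn := hKM b M I J L r hb hM hSI hJ hIJ hL hr0
    set m' : ℝ := mn r (M ⊓ L ⊓ kO J) with hm'
    have hm'0 : 0 < m' := by
      have h1 : 0 < nm J ^ 2 * mL := by positivity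
      have h2 : 0 < C2 * m' := lt_of_lt_of_le h1 hmn
      exact (mul_pos_iff_of_pos_left (by linarith)).1 h2
    have hne : ix (M ⊓ L ⊓ kO J) ≠ 0 := by
      rw [hix]
      have h1 : Ideal.absNorm I ≠ 0 := fun h => hI1 (Ideal.absNorm_eq_zero_iff.1 h)
      have h2 : Ideal.absNorm J ≠ 0 := fun h => hJ.ne (Ideal.absNorm_eq_zero_iff.1 h)
      exact mul_ne_zero (mul_ne_zero hMpos.ne' h1) (pow_ne_zero 2 h2)
    refine (hE r (M ⊓ L ⊓ kO J) s x y hr0 hne hs hR).trans ?_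
    have hq : (ix (M ⊓ L ⊓ kO J) : ℝ) / m' ≤ D * (nm I / mL) := by
      rw [div_le_iff₀ hm'0, hix]
      push_cast
      have h1 : (ix M : ℝ) ≤ (b : ℝ) ^ (2 * dg k) := by exact_mod_cast hMle
      calc (ix M : ℝ) * (Ideal.absNorm I : ℝ) * (Ideal.absNorm J : ℝ) ^ 2
          = (ix M : ℝ) * nm I * (nm J ^ 2) := rfl
        _ ≤ (b : ℝ) ^ (2 * dg k) * nm I * (C2 * m' / mL) := by
            gcongr
            rw [le_div_iff₀ hmL0]; exact hmn
        _ = D * (nm I / mL) * m' := by rw [hDdef]; ring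
    rw [hE0def]
    gcongr
  -- the terms
  have hterm : ∀ g ∈ (Sq b A).filter (fun g => I * g ∈ Sq b A),
      ‖α (I * g) / ((nm (I * g) : ℝ) : ℂ) *
        ∑ J ∈ dv g, ((nm J : ℝ) : ℂ) ^ (1 - 2 * s) * ((nm g : ℝ) : ℂ) ^ s *
          Ec s (M ⊓ L ⊓ kO J) x y‖ ≤ C3 * E0 / nm I * a ^ (1 / 2 + 4 * κ) * (1 / nm g) := by
    intro g hg
    obtain ⟨hg1, hg2⟩ := Finset.mem_filter.1 hg
    obtain ⟨g1, g2, g3, -⟩ := (hSqm b A g).1 hg1
    obtain ⟨-, g5, -, g6⟩ := (hSqm b A (I * g)).1 hg2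
    have hSg : Sf b g := ⟨g1, g2, g3⟩
    have hNg : 1 ≤ nm g := hnm1 g g1
    have hNg0 : 0 < nm g := by linarith
    have hcop : I ⊔ g = ⊤ := cfb_sup g5
    have hga : nm g ≤ a := by
      rw [hadef, le_div_iff₀ hNI0, mul_comm, ← cfb_nm_mul]; exact g6
    obtain ⟨hfin, hcard, -⟩ := hD g g1
    have hdv : ∀ J ∈ dv g, J ∣ g := fun J hJ => (Finset.mem_filter.1 hJ).2
    have hcd : ((dv g).card : ℝ) ≤ C3 * nm g ^ κ := by
      refine le_trans ?_ hcard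
      have h1 : ((dv g : Finset (Ideal (𝓞 k))) : Set (Ideal (𝓞 k))) ⊆ {J | J ∣ g} :=
        fun J hJ => hdv J hJ
      have h2 := Set.ncard_le_ncard h1 hfin
      rw [Set.ncard_coe_finset] at h2
      exact_mod_cast h2
    have hsum : ‖∑ J ∈ dv g, ((nm J : ℝ) : ℂ) ^ (1 - 2 * s) * ((nm g : ℝ) : ℂ) ^ s *
          Ec s (M ⊓ L ⊓ kO J) x y‖ ≤
        C3 * nm g ^ κ * (nm g ^ (2 * κ) * nm g ^ (1 / 2 + κ) * E0) := by
      calc ‖∑ J ∈ dv g, ((nm J : ℝ) : ℂ) ^ (1 - 2 * s) * ((nm g : ℝ) : ℂ) ^ s *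
          Ec s (M ⊓ L ⊓ kO J) x y‖ ≤ ∑ J ∈ dv g, nm g ^ (2 * κ) * nm g ^ (1 / 2 + κ) * E0 := by
            refine norm_sum_le_of_le _ fun J hJ => ?_
            have hJg := hdv J hJ
            have hSJ := cfb_Sf hSg hJg
            have hJ1 : 1 ≤ nm J := hnm1 J hSJ.ne
            have hJ0 : 0 < nm J := by linarith
            have hJle : nm J ≤ nm g := by
              obtain ⟨c, hc⟩ := hJg
              have hc0 : c ≠ ⊥ := by
                rintro rfl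
                apply g1
                rw [hc, Ideal.mul_bot]
              rw [hc, cfb_nm_mul]
              exact le_mul_of_one_le_right hJ0.le (hnm1 c hc0)
            have hIJ : I ⊔ J = ⊤ := cfb_top hcop (Ideal.dvd_iff_le.1 hJg)
            have hs1 := abs_le.1 hs
            rw [norm_mul, norm_mul, Complex.norm_cpow_eq_rpow_re_of_pos hJ0,
              Complex.norm_cpow_eq_rpow_re_of_pos hNg0]
            have e1 : (1 - 2 * s).re = 1 - 2 * s.re := by simp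
            rw [e1]
            have b1 : nm J ^ (1 - 2 * s.re) ≤ nm g ^ (2 * κ) := by
              calc nm J ^ (1 - 2 * s.re) ≤ nm J ^ (2 * κ) :=
                    Real.rpow_le_rpow_of_exponent_le hJ1 (by linarith [hs1.1])
                _ ≤ nm g ^ (2 * κ) := Real.rpow_le_rpow hJ0.le hJle (by linarith)
            have b2 : nm g ^ s.re ≤ nm g ^ (1 / 2 + κ) :=
              Real.rpow_le_rpow_of_exponent_le hNg (by linarith [hs1.2])
            exact mul_le_mul (mul_le_mul b1 b2 (by positivity) (by positivity)) (hEc J hSJ hIJ)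
              (norm_nonneg _) (by positivity)
        _ = (dv g).card * (nm g ^ (2 * κ) * nm g ^ (1 / 2 + κ) * E0) := by
            rw [Finset.sum_const, nsmul_eq_mul]
        _ ≤ _ := by gcongr
    have hfac : ‖α (I * g) / ((nm (I * g) : ℝ) : ℂ)‖ ≤ 1 / (nm I * nm g) := by
      rw [norm_div, Complex.norm_real, cfb_nm_mul, Real.norm_of_nonneg (by positivity)]
      gcongr
      exact hα _
    rw [norm_mul]
    calc _ ≤ 1 / (nm I * nm g) * (C3 * nm g ^ κ * (nm g ^ (2 * κ) * nm g ^ (1 / 2 + κ) * E0)) :=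
          mul_le_mul hfac hsum (norm_nonneg _) (by positivity)
      _ ≤ _ := cfb_term hκ hNI hNg (by linarith) hE00 a hga
  have hcf : ‖cf s α b A M I L x y‖ ≤
      C3 * E0 / nm I * a ^ (1 / 2 + 4 * κ) * (C4 * ((1 + 1 / κ) * a ^ κ)) := by
    unfold cf
    refine (norm_sum_le_of_le _ hterm).trans ?_
    rw [← Finset.mul_sum]
    have h1 : ∑ g ∈ (Sq b A).filter (fun g => I * g ∈ Sq b A), 1 / nm g ≤
        C4 * ((1 + 1 / κ) * a ^ κ) := by
      calc ∑ g ∈ (Sq b A).filter (fun g => I * g ∈ Sq b A), 1 / nm g ≤ ∑ g ∈ Id k a, 1 / nm g := by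
            refine Finset.sum_le_sum_of_subset_of_nonneg ?_ ?_
            · intro g hg
              obtain ⟨hg1, hg2⟩ := Finset.mem_filter.1 hg
              obtain ⟨g1, -, -, -⟩ := (hSqm b A g).1 hg1
              obtain ⟨-, -, -, g6⟩ := (hSqm b A (I * g)).1 hg2
              refine (hIDm a g).2 ⟨g1, ?_⟩
              rw [hadef, le_div_iff₀ hNI0, mul_comm, ← cfb_nm_mul]; exact g6
            · intro g _ _
              unfold nm; positivity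
        _ ≤ C4 * (1 + Real.log a) := (hC4' a ha1).2
        _ ≤ _ := by
            have := cfb_log ha1 hκ
            gcongr
    gcongr
  have hkey := cfb_real hA hNI hmL0 hrn hmL hκ
  have hpow : a ^ (1 / 2 + 4 * κ) * a ^ κ = a ^ (1 / 2 + 5 * κ) := by
    rw [← Real.rpow_add ha0]; congr 1; ring
  have hE0' : E0 = C1 * h0 * (D ^ (1 / 2 + 2 * κ) * (nm I / mL) ^ (1 / 2 + 2 * κ)) := by
    rw [hE0def, Real.mul_rpow hD0.le (by positivity)]
  have hX : C3 * E0 / nm I * a ^ (1 / 2 + 4 * κ) * (C4 * ((1 + 1 / κ) * a ^ κ)) =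
      (C3 * C4 * (1 + 1 / κ) * C1 * D ^ (1 / 2 + 2 * κ)) * h0 *
        (a ^ (1 / 2 + 5 * κ) * (nm I / mL) ^ (1 / 2 + 2 * κ)) / nm I := by
    rw [← hpow, hE0']; ring
  rw [hX] at hcf
  set G : ℝ := C3 * C4 * (1 + 1 / κ) * C1 * D ^ (1 / 2 + 2 * κ) with hG
  have hG0 : 0 ≤ G := by positivity
  calc ‖cf s α b A M I L x y‖ ^ 2 * nm I ^ 2 * mL
      ≤ (G * h0 * (a ^ (1 / 2 + 5 * κ) * (nm I / mL) ^ (1 / 2 + 2 * κ)) / nm I) ^ 2 * nm I ^ 2 *
        mL := by gcongr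
    _ = G ^ 2 * h0 ^ 2 * ((a ^ (1 / 2 + 5 * κ)) ^ 2 * ((nm I / mL) ^ (1 / 2 + 2 * κ)) ^ 2 * mL) := by
        field_simp
    _ ≤ G ^ 2 * h0 ^ 2 * (A * (A * r ^ dg k) ^ (16 * κ)) := by gcongr
    _ = _ := by ring

end Pool.Agent.H39.CM4
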