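import Pool.Agent.H65.CM4.Targets1

/-!
# Row DIA: the diagonal terms
-/

set_option autoImplicit false

open MeasureTheory Set Filter NumberField NumberField.InfinitePlace Pool.Agent.H65.CM4
open scoped Real

namespace Pool.Agent.H39.CM4

/-- powers against the exponential function -/
theorem dia_exp (n : ℕ) (c δ : ℝ) (hc : 0 < c) (hδ : 0 < δ) : ∃ C : ℝ, 0 ≤ C ∧ ∀ Y : ℝ, 1 ≤ Y →
    Y ^ n * Real.exp (-(c * Y ^ (2 * δ))) ≤ C := by
  obtain ⟨j, hj⟩ := exists_nat_ge ((n : ℝ) / (2 * δ))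
  refine ⟨j.factorial * (1 / c) ^ j, by positivity, fun Y hY => ?_⟩
  have hY0 : 0 < Y := by linarith
  set x : ℝ := c * Y ^ (2 * δ) with hx
  have hx0 : 0 < x := by positivity
  have h1 : x ^ j / j.factorial ≤ Real.exp x := Real.pow_div_factorial_le_exp x hx0.le j
  have h2 : Y ^ n ≤ (Y ^ (2 * δ)) ^ j := by
    rw [← Real.rpow_natCast, ← Real.rpow_natCast, ← Real.rpow_mul hY0.le]
    apply Real.rpow_le_rpow_of_exponent_le hY
    rw [div_le_iff₀ (by positivity)] at hj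
    linarith
  have h3 : Y ^ n ≤ (1 / c) ^ j * x ^ j := by
    rw [← mul_pow]
    have : 1 / c * x = Y ^ (2 * δ) := by rw [hx]; field_simp
    rw [this]; exact h2
  rw [Real.exp_neg, ← div_eq_mul_inv, div_le_iff₀ (Real.exp_pos _)]
  have hf : (0 : ℝ) < j.factorial := by exact_mod_cast Nat.factorial_pos j
  rw [div_le_iff₀ hf] at h1
  calc Y ^ n ≤ (1 / c) ^ j * x ^ j := h3
    _ ≤ (1 / c) ^ j * (Real.exp x * j.factorial) := by gcongr
    _ = _ := by ring

/-- the size of the coefficients, real numbers -/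
theorem dia_real {p1 p2 p3 q1 q2 q3 w1 w2 r s T y B : ℝ} (hr0 : 0 < r) (hr : 1 ≤ r) (hs0 : 0 ≤ s)
    (hB : 0 < B) (hy : 0 < y) (hpos : 0 < p1) (ha : r * p1 ≤ B * y) (hb : |p2| ≤ B * y)
    (hc : p3 ≤ B * y * r) (hd : T ≤ 4 * p1 * p3 - p2 ^ 2) (hT : 0 < T)
    (hD : (r * (p1 - q1)) ^ 2 + (p2 - q2) ^ 2 + ((p3 - q3) / r) ^ 2 ≤ s ^ 2) :
    |q1| ≤ B * y + s ∧
      |q1 * w1 ^ 2 + q2 * w1 * w2 + q3 * w2 ^ 2| ≤
        2 * (B * y + s) * (w1 ^ 2 / r + r * w2 ^ 2) := by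
  have hP3 : 0 < p3 := by
    have h2 : 0 < 4 * p1 * p3 := by nlinarith [sq_nonneg p2]
    have h3 : 0 < 4 * p1 := by linarith
    exact (mul_pos_iff_of_pos_left h3).1 h2
  have h1 : |r * (p1 - q1)| ≤ s :=
    abs_le_of_sq_le_sq (by linarith [sq_nonneg (p2 - q2), sq_nonneg ((p3 - q3) / r)]) hs0
  have h2 : |p2 - q2| ≤ s :=
    abs_le_of_sq_le_sq (by linarith [sq_nonneg (r * (p1 - q1)), sq_nonneg ((p3 - q3) / r)]) hs0
  have h3 : |(p3 - q3) / r| ≤ s :=
    abs_le_of_sq_le_sq (by linarith [sq_nonneg (r * (p1 - q1)), sq_nonneg (p2 - q2)]) hs0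
  have a1 : r * |q1| ≤ B * y + s := by
    have : |r * q1| ≤ |r * p1| + |r * (p1 - q1)| := by
      have e : r * q1 = r * p1 - r * (p1 - q1) := by ring
      rw [e]; exact abs_sub _ _
    rw [abs_mul, abs_of_pos hr0, abs_of_pos (mul_pos hr0 hpos)] at this
    linarith
  have a2 : |q2| ≤ B * y + s := by
    have : |q2| ≤ |p2| + |p2 - q2| := by
      have e : q2 = p2 - (p2 - q2) := by ring
      rw [e]; exact (abs_sub _ _).trans (by ring_nf; rfl)
    linarith
  have a3 : |q3| / r ≤ B * y + s := by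
    have : |q3 / r| ≤ |p3 / r| + |(p3 - q3) / r| := by
      have e : q3 / r = p3 / r - (p3 - q3) / r := by ring
      rw [e]; exact abs_sub _ _
    rw [abs_div, abs_of_pos hr0, abs_of_pos (div_pos hP3 hr0)] at this
    have h4 : p3 / r ≤ B * y := by
      rw [div_le_iff₀ hr0]; exact hc
    linarith
  have hE : 0 ≤ B * y + s := by positivity
  refine ⟨le_trans (by nlinarith [abs_nonneg q1]) a1, ?_⟩
  have b1 : |q1 * w1 ^ 2| ≤ (B * y + s) * (w1 ^ 2 / r) := by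
    rw [abs_mul, abs_of_nonneg (sq_nonneg w1)]
    calc |q1| * w1 ^ 2 = (r * |q1|) * (w1 ^ 2 / r) := by field_simp
      _ ≤ _ := by gcongr
  have b3 : |q3 * w2 ^ 2| ≤ (B * y + s) * (r * w2 ^ 2) := by
    rw [abs_mul, abs_of_nonneg (sq_nonneg w2)]
    calc |q3| * w2 ^ 2 = (|q3| / r) * (r * w2 ^ 2) := by field_simp
      _ ≤ _ := by gcongr
  have b2 : |q2 * w1 * w2| ≤ (B * y + s) * (w1 ^ 2 / r + r * w2 ^ 2) := by
    have hw : |w1 * w2| ≤ w1 ^ 2 / r + r * w2 ^ 2 := by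
      have hs : (0 : ℝ) < Real.sqrt r := Real.sqrt_pos.2 hr0
      have hss : Real.sqrt r ^ 2 = r := Real.sq_sqrt hr0.le
      have e1 : w1 ^ 2 / r = (w1 / Real.sqrt r) ^ 2 := by rw [div_pow, hss]
      have e2 : r * w2 ^ 2 = (Real.sqrt r * w2) ^ 2 := by rw [mul_pow, hss]
      have e3 : w1 * w2 = (w1 / Real.sqrt r) * (Real.sqrt r * w2) := by field_simp
      rw [e1, e2, e3, abs_le]
      generalize w1 / Real.sqrt r = a
      generalize Real.sqrt r * w2 = b
      constructor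
      · linarith [sq_nonneg (a + b), sq_nonneg a, sq_nonneg b]
      · linarith [sq_nonneg (a - b), sq_nonneg a, sq_nonneg b]
    calc |q2 * w1 * w2| = |q2| * |w1 * w2| := by rw [mul_assoc, abs_mul]
      _ ≤ _ := by gcongr
  calc |q1 * w1 ^ 2 + q2 * w1 * w2 + q3 * w2 ^ 2|
      ≤ |q1 * w1 ^ 2| + |q2 * w1 * w2| + |q3 * w2 ^ 2| := abs_add_three _ _ _
    _ ≤ (B * y + s) * (w1 ^ 2 / r) + (B * y + s) * (w1 ^ 2 / r + r * w2 ^ 2) +
        (B * y + s) * (r * w2 ^ 2) := by linarith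
    _ = 2 * (B * y + s) * (w1 ^ 2 / r + r * w2 ^ 2) := by ring

theorem dia_zero {q1 q2 d w1 w2 : ℝ} (h1 : 0 < q1) (h2 : 0 < d)
    (e : 0 = (2 * q1 * w1 + q2 * w2) ^ 2 + d * w2 ^ 2) : w1 = 0 ∧ w2 = 0 := by
  have h5 : 0 ≤ d * w2 ^ 2 := by positivity
  have h6 : d * w2 ^ 2 = 0 := by linarith [sq_nonneg (2 * q1 * w1 + q2 * w2)]
  have h4 : w2 = 0 := by
    rcases mul_eq_zero.1 h6 with h | h
    · exact absurd h h2.ne'
    · exact pow_eq_zero_iff (two_ne_zero) |>.1 h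
  subst h4
  have h6 : (2 * q1 * w1) ^ 2 = 0 := by
    have : (2 * q1 * w1 + q2 * 0) ^ 2 + d * 0 ^ 2 = (2 * q1 * w1) ^ 2 := by ring
    linarith
  have h7 : 2 * q1 * w1 = 0 := pow_eq_zero_iff (two_ne_zero) |>.1 h6
  rcases mul_eq_zero.1 h7 with h | h
  · exact absurd h (by positivity)
  · exact ⟨h, rfl⟩

theorem dia_E {B y s z D : ℝ} (hB : 1 ≤ B) (hz : 0 ≤ z) (hs : s ^ 2 = D) (hD : D ≤ y ^ 2 * z) :
    2 * (B * y + s) ^ 2 ≤ 4 * B ^ 2 * y ^ 2 * (1 + z) := by
  have h6 : 2 * (B * y + s) ^ 2 ≤ 4 * (B ^ 2 * y ^ 2 + D) := by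
    rw [← hs]
    have h := sq_nonneg (B * y - s)
    have e : 4 * (B ^ 2 * y ^ 2 + s ^ 2) - 2 * (B * y + s) ^ 2 = 2 * (B * y - s) ^ 2 := by ring
    linarith
  have h8 : 0 ≤ y ^ 2 * z := by positivity
  have h9 : (1 : ℝ) ≤ B ^ 2 := one_le_pow₀ hB
  have h7 : y ^ 2 * z ≤ B ^ 2 * (y ^ 2 * z) := le_mul_of_one_le_left h8 h9
  have e : 4 * B ^ 2 * y ^ 2 * (1 + z) = 4 * (B ^ 2 * y ^ 2 + B ^ 2 * (y ^ 2 * z)) := by ring
  rw [e]; linarith

section

variable {k : Type} [Field k] [NumberField k] [IsTotallyReal k]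

omit [IsTotallyReal k] in
theorem dia_dq_nonneg (r : ℝ) (P P' : RF k) : 0 ≤ dq r P P' := by
  unfold dq
  exact Finset.sum_nonneg fun v _ => by positivity

/-- the size of the coefficients -/
theorem dia_size {B y r : ℝ} {P : RF k} {Q : QF k} (hB : 1 ≤ B) (hy : 1 ≤ y) (hr : 1 ≤ r)
    (hP : Gd B y r P) (w : V2 k) (v : Pl k) :
    |rv v (Q.1 : k)| ≤ B * y + Real.sqrt (dq r P (rl Q)) ∧
      |rv v (val Q w : k)| ≤ 2 * (B * y + Real.sqrt (dq r P (rl Q))) * nr r v w := by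
  have hr0 : 0 < r := by linarith
  have hy0 : 0 < y := by linarith
  have hB0 : 0 < B := by linarith
  have hD0 : 0 ≤ dq r P (rl Q) := dia_dq_nonneg _ _ _
  have hT : 0 < y ^ 2 / B := by positivity
  have hD' : (r * ((P v).1 - rv v (Q.1 : k))) ^ 2 + ((P v).2.1 - rv v (Q.2.1 : k)) ^ 2 +
      (((P v).2.2 - rv v (Q.2.2 : k)) / r) ^ 2 ≤ Real.sqrt (dq r P (rl Q)) ^ 2 := by
    rw [Real.sq_sqrt hD0]
    unfold dq
    exact Finset.single_le_sum (f := fun v : Pl k => ((r * ((P v).1 - (rl Q v).1)) ^ 2 +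
      ((P v).2.1 - (rl Q v).2.1) ^ 2 + (((P v).2.2 - (rl Q v).2.2) / r) ^ 2))
      (fun v _ => by positivity) (Finset.mem_univ v)
  have h := dia_real (w1 := rv v (w.1 : k)) (w2 := rv v (w.2 : k)) hr0 hr (Real.sqrt_nonneg _) hB0 hy0
    (hP.pos v) (hP.a v) (hP.b v) (hP.c v) (hP.d v) hT hD'
  refine ⟨h.1, ?_⟩
  have hval : rv v (val Q w : k) = rv v (Q.1 : k) * rv v (w.1 : k) ^ 2 +
      rv v (Q.2.1 : k) * rv v (w.1 : k) * rv v (w.2 : k) + rv v (Q.2.2 : k) * rv v (w.2 : k) ^ 2 := by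
    unfold val
    simp only [map_add, map_mul, map_pow]
    ring
  rw [hval]
  exact h.2

/-- the positive definite forms do not vanish -/
theorem dia_val_ne {Q : QF k} {w : V2 k} (hw : w ≠ 0) (v : Pl k) (h1 : 0 < rv v (Q.1 : k))
    (h2 : 0 < rv v (dsc Q : k)) : val Q w ≠ 0 := by
  intro h0
  have hv0 : rv v (val Q w : k) = 0 := by rw [h0]; simp
  have e : 4 * rv v (Q.1 : k) * rv v (val Q w : k) =
      (2 * rv v (Q.1 : k) * rv v (w.1 : k) + rv v (Q.2.1 : k) * rv v (w.2 : k)) ^ 2 +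
        rv v (dsc Q : k) * rv v (w.2 : k) ^ 2 := by
    unfold val dsc
    have h4 : rv v ((4 : 𝓞 k) : k) = 4 := by
      have : ((4 : 𝓞 k) : k) = 4 := map_ofNat (algebraMap (𝓞 k) k) 4
      rw [this]; exact map_ofNat _ 4
    simp only [map_add, map_mul, map_pow, map_sub, h4]
    ring
  rw [hv0, mul_zero] at e
  obtain ⟨e1, e2⟩ := dia_zero h1 h2 e
  apply hw
  have e1 : (w.1 : k) = 0 := (map_eq_zero (rv v)).1 e1
  have e2 : (w.2 : k) = 0 := (map_eq_zero (rv v)).1 e2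
  refine Prod.ext ?_ ?_
  · exact RingOfIntegers.coe_eq_zero_iff.1 e1
  · exact RingOfIntegers.coe_eq_zero_iff.1 e2

/-- the pointwise majorant -/
theorem dia_pt (hn : 0 < dg k) (hcard : Fintype.card (Pl k) = dg k) (hNRD : T_NRD k) (hPTW : T_PTW k)
    (hTRV : T_TRV k) (hNPD : T_NPD k) (R : Ch k) (C₁ B e δ : ℝ) (hC₁ : 1 ≤ C₁) (hB : 1 ≤ B)
    (he : 0 < e) (he2 : 2 * e * dg k ≤ 1) (hδ : 0 < δ) (hδ2 : δ ≤ 1 / 2) : ∃ K : ℝ, 0 ≤ K ∧
    ∀ (b : ℕ) (y r A M : ℝ) (P : RF k) (w : V2 k) (Q : QF k) (G : ℂ), Adm R b →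
      1 ≤ y → 1 ≤ r → 1 ≤ A → A ≤ y ^ (dg k * (1 + δ)) → 0 ≤ M → Gd B y r P →
      w ∈ R.W → nn r w ≤ C₁ * A → ‖G‖ ≤ Real.sqrt (M / nn r w) * Tw b A w Q →
      ga (y ^ (1 - δ)) r P Q * ‖G‖ ^ 2 ≤ 1 / nn r w * (M * K * y ^ (12 * dg k * e) *
        Real.exp (-(dq r P (rl Q) / (y ^ (1 - δ)) ^ 2))) := by
  obtain ⟨C1, hC1, H1⟩ := hPTW R e he
  obtain ⟨C2, hC2, H2⟩ := hTRV R
  obtain ⟨c, hc, H3⟩ := hNPD B hB
  obtain ⟨C5, hC5, H5⟩ := dia_exp (28 * dg k) c δ hc hδ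
  set n : ℕ := dg k with hnd
  have hn1 : (1 : ℝ) ≤ n := by exact_mod_cast hn
  set K1 : ℝ := C₁ * (4 * B ^ 2) ^ n with hK1
  have hB2 : (1 : ℝ) ≤ 4 * B ^ 2 := by
    have : (1 : ℝ) ≤ B ^ 2 := one_le_pow₀ hB
    linarith
  have hK1' : 1 ≤ K1 := by
    have : (1 : ℝ) ≤ (4 * B ^ 2) ^ n := one_le_pow₀ hB2
    rw [hK1]; exact one_le_mul_of_one_le_of_one_le hC₁ this
  refine ⟨C1 ^ 2 * K1 + C2 ^ 2 * C5, by positivity, ?_⟩
  intro b y r A M P w Q G hb hy hr hA hAY hM hP hw hwA hG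
  have hy0 : 0 < y := by linarith
  have hr0 : 0 < r := by linarith
  have hA0 : 0 < A := by linarith
  have hw0 : w ≠ 0 := R.ne w hw
  obtain ⟨hV, hVv⟩ := (hNRD r w w hr0).2.1 hw0
  set V := nn r w with hVd
  set W : ℝ := y ^ (1 - δ) with hW
  have hW0 : 0 < W := Real.rpow_pos_of_pos hy0 _
  have hWY : W ≤ y := by
    rw [hW]
    calc y ^ (1 - δ) ≤ y ^ (1 : ℝ) := Real.rpow_le_rpow_of_exponent_le hy (by linarith)
      _ = y := Real.rpow_one y
  have hW2 : W ^ 2 = y ^ (2 - 2 * δ) := by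
    rw [hW, ← Real.rpow_natCast, ← Real.rpow_mul hy0.le]
    congr 1; push_cast; ring
  have hAY2 : A ≤ y ^ (2 * n) := by
    refine hAY.trans ?_
    rw [← Real.rpow_natCast]
    refine Real.rpow_le_rpow_of_exponent_le hy ?_
    have := mul_le_mul_of_nonneg_left (show 1 + δ ≤ 2 by linarith) (Nat.cast_nonneg (α := ℝ) n)
    push_cast; linarith
  set D := dq r P (rl Q) with hD
  have hD0 : 0 ≤ D := dia_dq_nonneg _ _ _
  set z : ℝ := D / W ^ 2 with hz
  have hz0 : 0 ≤ z := by positivity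
  have hTw0 : 0 ≤ Tw b A w Q := (H2 b A w Q hb hA hw).1
  have hG2 : ‖G‖ ^ 2 ≤ M / V * Tw b A w Q ^ 2 := by
    calc ‖G‖ ^ 2 ≤ (Real.sqrt (M / V) * Tw b A w Q) ^ 2 := pow_le_pow_left₀ (norm_nonneg _) hG 2
      _ = M / V * Tw b A w Q ^ 2 := by rw [mul_pow, Real.sq_sqrt (by positivity)]
  have hY12 : 1 ≤ y ^ (12 * n * e) := Real.one_le_rpow hy (by positivity)
  have hga : ga W r P Q ≤ Real.exp (-z) * Real.exp (-z) := by
    unfold ga
    rw [← Real.exp_add]
    apply Real.exp_le_exp.2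
    have h3 : π * D / W ^ 2 = π * z := by rw [hz]; ring
    rw [← hD, h3]
    have := mul_le_mul_of_nonneg_right Real.pi_gt_three.le hz0
    linarith
  have hga0 : 0 ≤ ga W r P Q := by unfold ga; positivity
  have key : ga W r P Q * Tw b A w Q ^ 2 ≤
      (C1 ^ 2 * K1 + C2 ^ 2 * C5) * y ^ (12 * n * e) * Real.exp (-z) := by
    by_cases hpd : ∃ v : Pl k, ¬ (0 < rv v (Q.1 : k) ∧ 0 < rv v (dsc Q : k))
    · -- not positive definite
      have h1 := H3 y r P Q hy hr0 hP hpd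
      have h2 := (H2 b A w Q hb hA hw).2
      have hzl : c * y ^ (2 * δ) ≤ z := by
        rw [hz, le_div_iff₀ (by positivity), hW2]
        have e1 : c * y ^ (2 * δ) * y ^ (2 - 2 * δ) = c * y ^ 2 := by
          rw [mul_assoc, ← Real.rpow_add hy0]
          congr 1
          rw [← Real.rpow_natCast]; congr 1; push_cast; ring
        rw [e1]; exact h1
      have h3 : Real.exp (-z) ≤ Real.exp (-(c * y ^ (2 * δ))) := by
        apply Real.exp_le_exp.2; linarith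
      have h4 := H5 y hy
      calc ga W r P Q * Tw b A w Q ^ 2 ≤ (Real.exp (-z) * Real.exp (-z)) * (C2 * A ^ 7) ^ 2 := by
            gcongr
        _ = C2 ^ 2 * (A ^ 14 * Real.exp (-z)) * Real.exp (-z) := by ring
        _ ≤ C2 ^ 2 * ((y ^ (2 * n)) ^ 14 * Real.exp (-(c * y ^ (2 * δ)))) * Real.exp (-z) := by
            gcongr
        _ = C2 ^ 2 * (y ^ (28 * n) * Real.exp (-(c * y ^ (2 * δ)))) * Real.exp (-z) := by
            rw [← pow_mul]; congr 4; ring
        _ ≤ C2 ^ 2 * C5 * Real.exp (-z) := by gcongr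
        _ = (0 + C2 ^ 2 * C5) * 1 * Real.exp (-z) := by ring
        _ ≤ _ := by gcongr; positivity
    · -- positive definite
      push Not at hpd
      obtain ⟨v0⟩ : Nonempty (Pl k) := by
        rw [← Fintype.card_pos_iff, hcard]; exact hn
      have hQ1 : Q.1 ≠ 0 := by
        intro h
        have h1 := (hpd v0).1
        rw [h] at h1; simp at h1
      have hval : val Q w ≠ 0 := dia_val_ne hw0 v0 (hpd v0).1 (hpd v0).2
      have h1 := H1 b A w Q hb hA hw hQ1 hval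
      have hsz := fun v => dia_size (Q := Q) hB hy hr hP w v
      rw [← hD] at hsz
      set s : ℝ := Real.sqrt D with hs
      have hs0 : 0 ≤ s := Real.sqrt_nonneg _
      have hs2 : s ^ 2 = D := Real.sq_sqrt hD0
      have hE : 0 ≤ B * y + s := by positivity
      have hN1 : Nr (Q.1 : k) ≤ (B * y + s) ^ n := by
        unfold Nr
        calc ∏ v : Pl k, |rv v (Q.1 : k)| ≤ ∏ _v : Pl k, (B * y + s) :=
              Finset.prod_le_prod (fun v _ => abs_nonneg _) fun v _ => (hsz v).1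
          _ = (B * y + s) ^ n := by rw [Finset.prod_const, Finset.card_univ, hcard]
      have hN2 : Nr (val Q w : k) ≤ (2 * (B * y + s)) ^ n * V := by
        unfold Nr
        calc ∏ v : Pl k, |rv v (val Q w : k)| ≤ ∏ v : Pl k, (2 * (B * y + s) * nr r v w) :=
              Finset.prod_le_prod (fun v _ => abs_nonneg _) fun v _ => (hsz v).2
          _ = (2 * (B * y + s)) ^ n * V := by
              rw [Finset.prod_mul_distrib, Finset.prod_const, Finset.card_univ, hcard]; rfl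
      have hN10 : 0 ≤ Nr (Q.1 : k) := Finset.prod_nonneg fun v _ => abs_nonneg _
      have hN20 : 0 ≤ Nr (val Q w : k) := Finset.prod_nonneg fun v _ => abs_nonneg _
      set T : ℝ := A * Nr (Q.1 : k) * Nr (val Q w : k) with hT
      have hT0 : 0 ≤ T := by positivity
      have hzD : D ≤ y ^ 2 * z := by
        rw [hz, mul_div_assoc', le_div_iff₀ (by positivity)]
        have : W ^ 2 ≤ y ^ 2 := pow_le_pow_left₀ hW0.le hWY 2
        rw [mul_comm]
        exact mul_le_mul_of_nonneg_right this hD0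
      have hEE : 2 * (B * y + s) ^ 2 ≤ 4 * B ^ 2 * y ^ 2 * (1 + z) := dia_E hB hz0 hs2 hzD
      have hTle : T ≤ K1 * y ^ (6 * n) * (1 + z) ^ n := by
        calc T ≤ A * (B * y + s) ^ n * ((2 * (B * y + s)) ^ n * (C₁ * A)) := by
              rw [hT]
              gcongr
              exact hN2.trans (by gcongr)
          _ = C₁ * A ^ 2 * (2 * (B * y + s) ^ 2) ^ n := by
              have e9 : (2 * (B * y + s) ^ 2) ^ n = (B * y + s) ^ n * (2 * (B * y + s)) ^ n := by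
                rw [← mul_pow]; congr 1; ring
              rw [e9]; ring
          _ ≤ C₁ * (y ^ (2 * n)) ^ 2 * (4 * B ^ 2 * y ^ 2 * (1 + z)) ^ n := by gcongr
          _ = K1 * y ^ (6 * n) * (1 + z) ^ n := by
              rw [hK1, mul_pow, mul_pow, ← pow_mul y 2 n, ← pow_mul y (2 * n) 2,
                show 6 * n = 2 * n * 2 + 2 * n by ring, pow_add]
              ring
      have hY6 : (y ^ (6 * n)) ^ (2 * e) = y ^ (12 * n * e) := by
        rw [← Real.rpow_natCast y (6 * n), ← Real.rpow_mul hy0.le]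
        congr 1; push_cast; ring
      have hzn : ((1 + z) ^ n) ^ (2 * e) ≤ 1 + z := by
        rw [← Real.rpow_natCast (1 + z) n, ← Real.rpow_mul (by positivity)]
        calc (1 + z) ^ ((n : ℝ) * (2 * e)) ≤ (1 + z) ^ (1 : ℝ) :=
              Real.rpow_le_rpow_of_exponent_le (by linarith) (by linarith)
          _ = 1 + z := Real.rpow_one _
      have he21 : 2 * e ≤ 1 := (le_mul_of_one_le_right (by linarith) hn1).trans he2
      have h2e : (T ^ e) ^ 2 ≤ K1 * y ^ (12 * n * e) * Real.exp z := by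
        have e1 : (T ^ e) ^ 2 = T ^ (2 * e) := by
          rw [← Real.rpow_natCast, ← Real.rpow_mul hT0]; congr 1; push_cast; ring
        rw [e1]
        calc T ^ (2 * e) ≤ (K1 * y ^ (6 * n) * (1 + z) ^ n) ^ (2 * e) :=
              Real.rpow_le_rpow hT0 hTle (by positivity)
          _ = K1 ^ (2 * e) * (y ^ (6 * n)) ^ (2 * e) * ((1 + z) ^ n) ^ (2 * e) := by
              rw [Real.mul_rpow (by positivity) (by positivity),
                Real.mul_rpow (by positivity) (by positivity)]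
          _ ≤ K1 ^ (1 : ℝ) * (y ^ (6 * n)) ^ (2 * e) * (1 + z) := by
              gcongr
          _ = K1 * y ^ (12 * n * e) * (1 + z) := by rw [Real.rpow_one, hY6]
          _ ≤ K1 * y ^ (12 * n * e) * Real.exp z := by
              gcongr
              linarith [Real.add_one_le_exp z]
      have hexp : Real.exp (-z) * Real.exp z = 1 := by rw [← Real.exp_add]; simp
      calc ga W r P Q * Tw b A w Q ^ 2 ≤ (Real.exp (-z) * Real.exp (-z)) * (C1 * T ^ e) ^ 2 := by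
            gcongr
        _ = C1 ^ 2 * (T ^ e) ^ 2 * (Real.exp (-z) * Real.exp (-z)) := by ring
        _ ≤ C1 ^ 2 * (K1 * y ^ (12 * n * e) * Real.exp z) * (Real.exp (-z) * Real.exp (-z)) := by
            gcongr
        _ = C1 ^ 2 * K1 * y ^ (12 * n * e) * (Real.exp (-z) * Real.exp z) * Real.exp (-z) := by
            ring
        _ = (C1 ^ 2 * K1 + 0) * y ^ (12 * n * e) * Real.exp (-z) := by rw [hexp]; ring
        _ ≤ _ := by gcongr; positivity
  calc ga W r P Q * ‖G‖ ^ 2 ≤ ga W r P Q * (M / V * Tw b A w Q ^ 2) := by gcongr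
    _ = M / V * (ga W r P Q * Tw b A w Q ^ 2) := by ring
    _ ≤ M / V * ((C1 ^ 2 * K1 + C2 ^ 2 * C5) * y ^ (12 * n * e) * Real.exp (-z)) := by gcongr
    _ = _ := by ring

end

variable (k : Type) [Field k] [NumberField k] [IsTotallyReal k]

theorem pf_DIA (hEMB : T_EMB k) (hNRD : T_NRD k) (hW10 : T_W10 k) (hWSM : T_WSM k) (hPTW : T_PTW k)
    (hTRV : T_TRV k) (hNPD : T_NPD k) (hGMA : T_GMA k) : T_DIA k := by
  classical
  intro R C₁ B hC₁ hB ε hε
  refine ⟨1 / 2, by norm_num, fun δ hδ hδ2 => ?_⟩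
  have hcard : Fintype.card (Pl k) = dg k := hEMB.1
  have hn : 0 < dg k := hEMB.2.1
  set n : ℕ := dg k with hnd
  have hn1 : (1 : ℝ) ≤ n := by exact_mod_cast hn
  have hn0 : (0 : ℝ) < n := by linarith
  set e : ℝ := min (ε / 13) (1 / (2 * n)) with he
  have he0 : 0 < e := by positivity
  have he1 : 13 * e ≤ ε := by have := min_le_left (ε / 13) (1 / (2 * n) : ℝ); rw [← he] at this; linarith
  have he2 : 2 * e * n ≤ 1 := by
    have := min_le_right (ε / 13) (1 / (2 * n) : ℝ)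
    rw [← he, le_div_iff₀ (by positivity)] at this; linarith
  obtain ⟨K, hK, HK⟩ := dia_pt (k := k) hn hcard hNRD hPTW hTRV hNPD R C₁ B e δ hC₁ hB he0 he2 hδ hδ2
  obtain ⟨C3, hC3, H3⟩ := hGMA
  obtain ⟨C4, hC4, H4⟩ := hWSM
  have hlC : 0 ≤ Real.log C₁ := Real.log_nonneg hC₁
  set S1 : ℝ := 1 + C4 * (1 + Real.log C₁ + 2 * n / e) with hS1
  have hS10 : 0 ≤ S1 := by positivity
  refine ⟨S1 * K * (C3 * (1 + C₁) ^ n), by positivity, ?_⟩
  intro b y r A M P F G hb hy hr hrY hA hAY hM hP hF hG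
  have hy0 : 0 < y := by linarith
  have hr0 : 0 < r := by linarith
  set W : ℝ := y ^ (1 - δ) with hW
  have hW1 : 1 ≤ W := Real.one_le_rpow hy (by linarith)
  have hWY : W ≤ y := by
    rw [hW]
    calc y ^ (1 - δ) ≤ y ^ (1 : ℝ) := Real.rpow_le_rpow_of_exponent_le hy (by linarith)
      _ = y := Real.rpow_one y
  obtain ⟨hs, hle⟩ := H3 W r P hW1 hr
  have hVpos : ∀ w ∈ F, 0 < nn r w := fun w hw => ((hNRD r w w hr0).2.1 (R.ne w (hF w hw).1)).1
  set S : ℝ := ∑ w ∈ F, 1 / nn r w with hS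
  have hS0 : 0 ≤ S := Finset.sum_nonneg fun w hw => by
    have := hVpos w hw
    positivity
  have hga0 : ∀ Q, 0 ≤ ga W r P Q := fun Q => by unfold ga; positivity
  have hpt : ∀ Q, ga W r P Q * ∑ w ∈ F, ‖G w Q‖ ^ 2 ≤
      S * (M * K * y ^ (12 * n * e)) * Real.exp (-(dq r P (rl Q) / W ^ 2)) := by
    intro Q
    rw [Finset.mul_sum]
    calc ∑ w ∈ F, ga W r P Q * ‖G w Q‖ ^ 2 ≤ ∑ w ∈ F, 1 / nn r w * (M * K * y ^ (12 * n * e) *
        Real.exp (-(dq r P (rl Q) / W ^ 2))) := by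
          refine Finset.sum_le_sum fun w hw => ?_
          exact HK b y r A M P w Q (G w Q) hb hy hr hA hAY hM hP (hF w hw).1 (hF w hw).2 (hG w hw Q)
      _ = _ := by rw [← Finset.sum_mul, hS]; ring
  have hsum : Summable (fun Q : QF k => ga W r P Q * ∑ w ∈ F, ‖G w Q‖ ^ 2) := by
    refine Summable.of_nonneg_of_le (fun Q => mul_nonneg (hga0 Q)
      (Finset.sum_nonneg fun w _ => sq_nonneg _)) hpt (hs.mul_left _)
  refine ⟨hsum, ?_⟩
  have hrn1 : 1 ≤ r ^ n := one_le_pow₀ hr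
  have hSle : S ≤ S1 * (r ^ n * y ^ e) := by
    have hYe : 1 ≤ y ^ e := Real.one_le_rpow hy he0.le
    have hlog0 : 0 ≤ Real.log y := Real.log_nonneg hy
    have hCA : 1 ≤ C₁ * A := one_le_mul_of_one_le_of_one_le hC₁ hA
    have h1 : ∑ w ∈ F.filter (fun w => w.2 ≠ 0), 1 / nn r w ≤ C4 * (1 + Real.log (C₁ * A)) :=
      H4 R r (C₁ * A) _ hr hCA (fun w hw =>
        ⟨(hF w (Finset.mem_filter.1 hw).1).1, (Finset.mem_filter.1 hw).2,
          (hF w (Finset.mem_filter.1 hw).1).2⟩)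
    have h2 : ∑ w ∈ F.filter (fun w => ¬ w.2 ≠ 0), 1 / nn r w ≤ r ^ n := by
      by_cases hne : (F.filter (fun w => ¬ w.2 ≠ 0)).Nonempty
      · obtain ⟨w0, hw0⟩ := hne
        obtain ⟨hw01, hw02⟩ := Finset.mem_filter.1 hw0
        have hw02' : w0.2 = 0 := not_not.1 hw02
        obtain ⟨hu, hlo, _⟩ := hW10 R r w0 hr0 (hF w0 hw01).1 hw02'
        have hsub : F.filter (fun w => ¬ w.2 ≠ 0) = {w0} := by
          ext w
          rw [Finset.mem_singleton]
          constructor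
          · intro hw
            obtain ⟨hw1, hw2⟩ := Finset.mem_filter.1 hw
            exact hu w (hF w hw1).1 (not_not.1 hw2)
          · rintro rfl; exact hw0
        rw [hsub, Finset.sum_singleton]
        have hp := hVpos w0 hw01
        rw [div_le_iff₀ hp]
        have hrp : 0 < r ^ n := by positivity
        rw [div_le_iff₀ hrp] at hlo
        linarith
      · rw [Finset.not_nonempty_iff_eq_empty.1 hne, Finset.sum_empty]; positivity
    have h3 : Real.log (C₁ * A) ≤ Real.log C₁ + 2 * n * (y ^ e / e) := by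
      have hA0 : 0 < A := by linarith
      rw [Real.log_mul (by linarith) hA0.ne']
      have h4 : Real.log A ≤ 2 * n * Real.log y := by
        have : Real.log A ≤ Real.log (y ^ ((n : ℝ) * (1 + δ))) := Real.log_le_log hA0 hAY
        rw [Real.log_rpow hy0] at this
        have h5 : (n : ℝ) * (1 + δ) * Real.log y ≤ 2 * n * Real.log y := by
          apply mul_le_mul_of_nonneg_right _ hlog0
          have := mul_le_mul_of_nonneg_left (show 1 + δ ≤ 2 by linarith) hn0.le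
          linarith
        linarith
      have h5 : Real.log y ≤ y ^ e / e := Real.log_le_rpow_div hy0.le he0
      have h6 : 2 * (n : ℝ) * Real.log y ≤ 2 * n * (y ^ e / e) := by gcongr
      linarith
    rw [hS, ← Finset.sum_filter_add_sum_filter_not F (fun w => w.2 ≠ 0)]
    have hrY1 : 1 ≤ r ^ n * y ^ e := one_le_mul_of_one_le_of_one_le hrn1 hYe
    have hb1 : y ^ e ≤ r ^ n * y ^ e := le_mul_of_one_le_left (by positivity) hrn1
    have hb2 : r ^ n ≤ r ^ n * y ^ e := le_mul_of_one_le_right (by positivity) hYe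
    calc _ ≤ C4 * (1 + Real.log (C₁ * A)) + r ^ n := add_le_add h1 h2
      _ ≤ C4 * (1 + (Real.log C₁ + 2 * n * (y ^ e / e))) + r ^ n := by gcongr
      _ = C4 * ((1 + Real.log C₁) * 1 + 2 * n / e * y ^ e) + r ^ n := by ring
      _ ≤ C4 * ((1 + Real.log C₁) * (r ^ n * y ^ e) + 2 * n / e * (r ^ n * y ^ e)) +
          r ^ n * y ^ e := by gcongr
      _ = _ := by rw [hS1]; ring
  have hW3 : W ^ 2 * (W + r) ≤ (1 + C₁) * y ^ 3 := by
    calc W ^ 2 * (W + r) ≤ y ^ 2 * (y + C₁ * y) := by gcongr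
      _ = (1 + C₁) * y ^ 3 := by ring
  have hC10 : 0 ≤ 1 + C₁ := by linarith
  calc ∑' Q : QF k, ga W r P Q * ∑ w ∈ F, ‖G w Q‖ ^ 2
      ≤ ∑' Q : QF k, S * (M * K * y ^ (12 * n * e)) * Real.exp (-(dq r P (rl Q) / W ^ 2)) :=
        hsum.tsum_le_tsum hpt (hs.mul_left _)
    _ = S * (M * K * y ^ (12 * n * e)) * ∑' Q : QF k, Real.exp (-(dq r P (rl Q) / W ^ 2)) := by
        rw [tsum_mul_left]
    _ ≤ S * (M * K * y ^ (12 * n * e)) * (C3 * ((1 + C₁) * y ^ 3) ^ n) := by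
        gcongr
        exact hle.trans (by gcongr)
    _ ≤ (S1 * (r ^ n * y ^ e)) * (M * K * y ^ (12 * n * e)) * (C3 * ((1 + C₁) * y ^ 3) ^ n) := by
        gcongr
    _ = S1 * K * (C3 * (1 + C₁) ^ n) * (y ^ e * y ^ (12 * n * e) * y ^ (3 * n)) * r ^ n * M := by
        rw [mul_pow, ← pow_mul]; ring
    _ = S1 * K * (C3 * (1 + C₁) ^ n) * y ^ (3 * n + (12 * n * e + e)) * r ^ n * M := by
        congr 3
        rw [← Real.rpow_natCast y (3 * n), ← Real.rpow_add hy0, ← Real.rpow_add hy0]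
        congr 1; push_cast; ring
    _ ≤ S1 * K * (C3 * (1 + C₁) ^ n) * y ^ (n * (3 + ε)) * r ^ n * M := by
        gcongr
        have h1 := mul_le_mul_of_nonneg_left he1 hn0.le
        have h2 := le_mul_of_one_le_left he0.le hn1
        linarith

end Pool.Agent.H39.CM4
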